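import Pool.Agent.Q235.HE.Curve

set_option autoImplicit false

/-!
# MP_1b99aa_mp, Q1: an edge state curve which does not end in band crossings

The definitions (honeycomb, rational edges, edge states, edge state curves, band crossings) are in
`Pool/Agent/Q235/HE/Def.lean`. The edge has direction `3 v̊₁ + v̊₂ = (2√3, 1)`.
-/

namespace Pool.Agent.Results.MP_1b99aa_mp.CurveAwayFromCrossings

open scoped Topology
open Filter Pool.Agent.Q235.HE

/-- Not every edge state curve of a rational edge emerges from and terminates in a band crossing.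
For the half-plane `x · (2/√3, -4) ≥ 1/2` of the edge `(3, 1)` every non-zero edge state energy,
at any momentum, is at distance at least `ε > 0` from zero; there is an edge state curve through `k = 0` with energies at
least `ε`; and no edge state curve with a non-zero energy comes closer than `ε` to zero, so that
none of its ends is a band crossing. -/
theorem result :
    (¬ ∀ (e : Edge) (I : Set Real.Angle) (E : Real.Angle → ℝ), e.IsCurve I E → e.Connects I E) ∧
    ∃ e : Edge, e.a = 3 ∧ e.b = 1 ∧ e.ν = ⟨2 / Real.sqrt 3, -4⟩ ∧ e.c = 1 / 2 ∧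
      ∃ ε : ℝ, 0 < ε ∧
      (∀ (k : Real.Angle) (E : ℝ), e.IsEnergy k E → E = 0 ∨ ε ≤ |E|) ∧
      (∃ (I : Set Real.Angle) (E : Real.Angle → ℝ), e.IsCurve I E ∧ (0 : Real.Angle) ∈ I ∧
        (∀ k ∈ I, ε ≤ E k) ∧ ¬ e.Connects I E) ∧
      (∀ (I : Set Real.Angle) (E : Real.Angle → ℝ), e.IsCurve I E → (∃ k ∈ I, E k ≠ 0) →
        (∀ k ∈ I, ε ≤ |E k|) ∧ ¬ e.Connects I E) := by
  obtain ⟨ε, hε, hgap⟩ := energy_gap
  have hno : ∀ (I : Set Real.Angle) (E : Real.Angle → ℝ), (∀ k ∈ I, ε ≤ |E k|) →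
      ¬ e31.Connects I E := by
    rintro I E h ⟨α, β, hαβ, -, rfl, ⟨-, ht⟩, -⟩
    refine not_tendsto hε h (𝓝[>] α) ?_ ht
    filter_upwards [Ioo_mem_nhdsGT hαβ] with x hx
    exact ⟨x, hx, rfl⟩
  obtain ⟨I0, E0, hfam, h0, hE0⟩ := exists_family
  obtain ⟨I, E, hcurve, hsub, heq⟩ := exists_curve e31 I0 E0 hfam
  have hpos : 0 < E 0 := by rw [heq h0]; exact hE0
  have hge : ∀ k ∈ I, ε ≤ E k := family_pos hε hgap hcurve.1 (hsub h0) hpos
  have hnc : ¬ e31.Connects I E := hno I E fun k hk => (hge k hk).trans (le_abs_self _)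
  refine ⟨fun h => hnc (h e31 I E hcurve), e31, rfl, rfl, rfl, rfl, ε, hε, hgap,
    ⟨I, E, hcurve, hsub h0, hge, hnc⟩, ?_⟩
  rintro I' E' hc ⟨k, hk, hne⟩
  have h1 := family_abs hε hgap hc.1 hk hne
  exact ⟨h1, hno I' E' h1⟩

end Pool.Agent.Results.MP_1b99aa_mp.CurveAwayFromCrossings
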